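import Pool.Agent.H23.AF.Targets

/-!
# Module F2: energy of a box of exponent parts, with an archimedean condition
-/

set_option autoImplicit false

namespace Pool.Agent.H59.AF

open Pool.Agent.H38.AE Pool.Agent.H23.AF Finset

theorem one_le_pr {ι : Type} (s : Finset ι) (f : ι → ℝ) (h : ∀ i ∈ s, 1 ≤ f i) :
    1 ≤ ∏ i ∈ s, f i := by
  classical
  induction s using Finset.induction_on with
  | empty => simp
  | insert a s ha ih =>
    rw [Finset.prod_insert ha]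
    exact one_le_mul_of_one_le_of_one_le (h a (Finset.mem_insert_self a s))
      (ih fun i hi => h i (Finset.mem_insert_of_mem hi))

/-! ### Classes -/

theorem card_pairs {α β : Type} [DecidableEq β] (P : Finset α) (φ ψ : α → β) (B : Finset β)
    (hB : ∀ v ∈ P, φ v ∈ B) :
    ((P ×ˢ P).filter (fun t => φ t.1 = ψ t.2)).card =
      ∑ b ∈ B, (P.filter (fun v => φ v = b)).card * (P.filter (fun v => ψ v = b)).card := by
  rw [Finset.card_eq_sum_card_fiberwise (f := fun t : α × α => φ t.1) (t := B)]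
  · refine Finset.sum_congr rfl fun b _ => ?_
    rw [← Finset.card_product]
    congr 1
    ext t
    simp only [Finset.mem_filter, Finset.mem_product]
    constructor
    · rintro ⟨⟨⟨h1, h2⟩, h3⟩, h4⟩
      exact ⟨⟨h1, h4⟩, ⟨h2, by rw [← h3, h4]⟩⟩
    · rintro ⟨⟨h1, h4⟩, ⟨h2, h3⟩⟩
      exact ⟨⟨⟨h1, h2⟩, by rw [h4, h3]⟩, h4⟩
  · intro t ht
    have ht' := (Finset.mem_filter.1 (Finset.mem_coe.1 ht)).1
    exact Finset.mem_coe.2 (hB t.1 (Finset.mem_product.1 ht').1)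

theorem cs_card {α β : Type} [DecidableEq β] (P : Finset α) (φ ψ : α → β)
    (h : ∀ v ∈ P, ∀ w ∈ P, ψ v = ψ w → φ v = φ w) :
    ((P ×ˢ P).filter (fun t => φ t.1 = ψ t.2)).card ≤
      ((P ×ˢ P).filter (fun t => φ t.1 = φ t.2)).card := by
  set B : Finset β := P.image φ ∪ P.image ψ with hB
  have h1 := card_pairs P φ ψ B (fun v hv => by
    rw [hB]; exact Finset.mem_union_left _ (Finset.mem_image_of_mem φ hv))
  have h2 := card_pairs P φ φ B (fun v hv => by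
    rw [hB]; exact Finset.mem_union_left _ (Finset.mem_image_of_mem φ hv))
  have h3 := card_pairs P ψ ψ B (fun v hv => by
    rw [hB]; exact Finset.mem_union_right _ (Finset.mem_image_of_mem ψ hv))
  have h4 : ((P ×ˢ P).filter (fun t => ψ t.1 = ψ t.2)).card ≤
      ((P ×ˢ P).filter (fun t => φ t.1 = φ t.2)).card := by
    refine Finset.card_le_card fun t ht => ?_
    rw [Finset.mem_filter, Finset.mem_product] at ht ⊢
    exact ⟨ht.1, h t.1 ht.1.1 t.2 ht.1.2 ht.2⟩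
  have h5 : 2 * ∑ b ∈ B, (P.filter (fun v => φ v = b)).card * (P.filter (fun v => ψ v = b)).card ≤
      ∑ b ∈ B, (P.filter (fun v => φ v = b)).card * (P.filter (fun v => φ v = b)).card +
      ∑ b ∈ B, (P.filter (fun v => ψ v = b)).card * (P.filter (fun v => ψ v = b)).card := by
    rw [← Finset.sum_add_distrib, Finset.mul_sum]
    refine Finset.sum_le_sum fun b _ => ?_
    have := two_mul_le_add_sq ((P.filter (fun v => φ v = b)).card : ℤ)
      ((P.filter (fun v => ψ v = b)).card : ℤ)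
    zify
    nlinarith
  omega

theorem split_card {α G : Type} [DecidableEq G] (P : Finset α) (g : α → G) (m : α → ℕ) (D : ℕ)
    (S : Finset (α × α)) (h : ∀ t ∈ S, t.1 ∈ P ∧ t.2 ∈ P ∧ g t.1 = g t.2 ∧
      m t.1 ≤ m t.2 + D ∧ m t.2 ≤ m t.1 + D) :
    S.card ≤ (2 * D + 1) *
      ((P ×ˢ P).filter (fun t => g t.1 = g t.2 ∧ m t.1 = m t.2)).card := by
  classical
  set F : ℤ → Finset (α × α) := fun k =>
    (P ×ˢ P).filter (fun t => (g t.1, (m t.1 : ℤ)) = (g t.2, (m t.2 : ℤ) + k)) with hF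
  have hsub : S ⊆ (Finset.Icc (-(D : ℤ)) D).biUnion F := by
    intro t ht
    obtain ⟨h1, h2, h3, h4, h5⟩ := h t ht
    rw [Finset.mem_biUnion]
    refine ⟨(m t.1 : ℤ) - m t.2, ?_, ?_⟩
    · rw [Finset.mem_Icc]
      omega
    · rw [hF]
      simp only [Finset.mem_filter, Finset.mem_product, Prod.mk.injEq]
      refine ⟨⟨h1, h2⟩, h3, ?_⟩
      ring
  refine (Finset.card_le_card hsub).trans (Finset.card_biUnion_le.trans ?_)
  have hk : ∀ k ∈ Finset.Icc (-(D : ℤ)) D, (F k).card ≤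
      ((P ×ˢ P).filter (fun t => g t.1 = g t.2 ∧ m t.1 = m t.2)).card := by
    intro k _
    refine (cs_card P (fun v => (g v, (m v : ℤ))) (fun v => (g v, (m v : ℤ) + k)) ?_).trans ?_
    · intro v _ w _ hvw
      simp only [Prod.mk.injEq] at hvw ⊢
      exact ⟨hvw.1, by omega⟩
    · refine Finset.card_le_card fun t ht => ?_
      simp only [Finset.mem_filter, Finset.mem_product, Prod.mk.injEq] at ht ⊢
      exact ⟨ht.1, ht.2.1, by exact_mod_cast ht.2.2⟩
  refine (Finset.sum_le_sum hk).trans ?_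
  rw [Finset.sum_const, smul_eq_mul, Int.card_Icc]
  refine Nat.mul_le_mul_right _ ?_
  omega

/-! ### Values -/

open Classical in
/-- the unit of a natural number modulo `q` -/
noncomputable def uq (q y : ℕ) : (ZMod q)ˣ :=
  if h : IsUnit ((y : ℕ) : ZMod q) then h.unit else 1

theorem uq_val {q y : ℕ} (h : IsUnit ((y : ℕ) : ZMod q)) :
    ((uq q y : (ZMod q)ˣ) : ZMod q) = y := by
  unfold uq
  rw [dif_pos h]
  exact h.unit_spec

/-- the value of one coordinate -/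
noncomputable def fv (q T L j y : ℕ) : (ZMod q)ˣ × Multiplicative (ZMod L) :=
  (uq q y ^ j, Multiplicative.ofAdd ((cel T j y : ℕ) : ZMod L))

theorem prod_fst {ι : Type} (s : Finset ι) {G H : Type} [CommMonoid G] [CommMonoid H]
    (f : ι → G × H) : (∏ i ∈ s, f i).1 = ∏ i ∈ s, (f i).1 := Prod.fst_prod

theorem prod_snd {ι : Type} (s : Finset ι) {G H : Type} [CommMonoid G] [CommMonoid H]
    (f : ι → G × H) : (∏ i ∈ s, f i).2 = ∏ i ∈ s, (f i).2 := Prod.snd_prod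

theorem fv_fst {q T L : ℕ} {ι : Type} (s : Finset ι) (e : ι → ℕ) (y : ι → ℕ)
    (h : ∀ i ∈ s, IsUnit ((y i : ℕ) : ZMod q)) :
    (((∏ i ∈ s, fv q T L (e i) (y i)).1 : (ZMod q)ˣ) : ZMod q) =
      ∏ i ∈ s, ((y i : ℕ) : ZMod q) ^ (e i) := by
  rw [prod_fst, Units.coe_prod]
  refine Finset.prod_congr rfl fun i hi => ?_
  rw [fv, Units.val_pow_eq_pow_val, uq_val (h i hi)]

theorem fv_snd {q T L : ℕ} {ι : Type} (s : Finset ι) (e : ι → ℕ) (y : ι → ℕ) :
    (∏ i ∈ s, fv q T L (e i) (y i)).2 =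
      Multiplicative.ofAdd (((∑ i ∈ s, cel T (e i) (y i) : ℕ)) : ZMod L) := by
  rw [prod_snd, Nat.cast_sum, ofAdd_sum]
  rfl

theorem en_le {q T L j n M Y : ℕ} [NeZero q] [NeZero L]
    (hM : ∀ y ∈ Ico Y (2 * Y), cel T j y ≤ M) (hL : n * M < L) :
    En ((Ico Y (2 * Y)).filter (fun y => IsUnit ((y : ℕ) : ZMod q))) (fv q T L j) n ≤
    ((((Fintype.piFinset (fun _ : Fin n => Finset.Ico Y (2 * Y))) ×ˢ
      (Fintype.piFinset (fun _ : Fin n => Finset.Ico Y (2 * Y)))).filter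
    (fun t => ((∏ i, t.1 i : ℕ) : ZMod q) ^ j = ((∏ i, t.2 i : ℕ) : ZMod q) ^ j ∧
      IsUnit (((∏ i, t.1 i : ℕ) : ZMod q) ^ j) ∧
      ∑ i, cel T j (t.1 i) = ∑ i, cel T j (t.2 i))).card : ℝ) := by
  unfold En
  rw [Nat.cast_le]
  refine Finset.card_le_card fun t ht => ?_
  rw [Finset.mem_filter, Finset.mem_product, Fintype.mem_piFinset, Fintype.mem_piFinset] at ht
  obtain ⟨⟨h1, h2⟩, h3⟩ := ht
  have h1' : ∀ i, t.1 i ∈ Ico Y (2 * Y) ∧ IsUnit ((t.1 i : ℕ) : ZMod q) := fun i =>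
    Finset.mem_filter.1 (h1 i)
  have h2' : ∀ i, t.2 i ∈ Ico Y (2 * Y) ∧ IsUnit ((t.2 i : ℕ) : ZMod q) := fun i =>
    Finset.mem_filter.1 (h2 i)
  rw [Finset.mem_filter, Finset.mem_product, Fintype.mem_piFinset, Fintype.mem_piFinset]
  refine ⟨⟨fun i => (h1' i).1, fun i => (h2' i).1⟩, ?_, ?_, ?_⟩
  · have e1 := congrArg (fun z : (ZMod q)ˣ × Multiplicative (ZMod L) => ((z.1 : (ZMod q)ˣ) : ZMod q))
      h3
    rw [fv_fst (T := T) (L := L) Finset.univ (fun _ => j) (fun i => t.1 i)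
      (fun i _ => (h1' i).2), fv_fst (T := T) (L := L) Finset.univ (fun _ => j)
      (fun i => t.2 i) (fun i _ => (h2' i).2), Finset.prod_pow, Finset.prod_pow] at e1
    push_cast
    exact e1
  · refine IsUnit.pow _ ?_
    push_cast
    exact (IsUnit.prod_univ_iff).2 fun i => (h1' i).2
  · have e2 := congrArg (fun z : (ZMod q)ˣ × Multiplicative (ZMod L) => z.2) h3
    rw [fv_snd Finset.univ (fun _ => j) (fun i => t.1 i),
      fv_snd Finset.univ (fun _ => j) (fun i => t.2 i)] at e2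
    have e3 := Multiplicative.ofAdd.injective e2
    rw [ZMod.natCast_eq_natCast_iff] at e3
    have hb : ∀ u : Fin n → ℕ, (∀ i, u i ∈ Ico Y (2 * Y)) → ∑ i, cel T j (u i) < L := by
      intro u hu
      refine lt_of_le_of_lt (Finset.sum_le_card_nsmul _ _ M fun i _ => hM _ (hu i)) ?_
      rw [Finset.card_univ, Fintype.card_fin, smul_eq_mul]
      exact hL
    exact Nat.ModEq.eq_of_lt_of_lt e3 (hb _ fun i => (h1' i).1) (hb _ fun i => (h2' i).1)

/-! ### One factor -/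

theorem pw {Q z : ℝ} {k : ℕ} (hQ : 0 < Q) :
    Real.exp z ^ k + Real.exp z ^ (2 * k) / Q ≤
      2 * Real.exp (max ((k : ℝ) * z) (2 * (k : ℝ) * z - Real.log Q)) := by
  have h1 : Real.exp z ^ k ≤ Real.exp (max ((k : ℝ) * z) (2 * (k : ℝ) * z - Real.log Q)) := by
    rw [← Real.exp_nat_mul]
    exact Real.exp_le_exp.2 (le_max_left _ _)
  have h2 : Real.exp z ^ (2 * k) / Q ≤
      Real.exp (max ((k : ℝ) * z) (2 * (k : ℝ) * z - Real.log Q)) := by
    rw [← Real.exp_nat_mul]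
    have : Real.exp (((2 * k : ℕ) : ℝ) * z) / Q = Real.exp (2 * (k : ℝ) * z - Real.log Q) := by
      rw [Real.exp_sub, Real.exp_log hQ]
      push_cast
      rfl
    rw [this]
    exact Real.exp_le_exp.2 (le_max_right _ _)
  linarith

theorem factor (hCI : T_CI) {B Q a w E1 E2 : ℝ} {n : ℕ} (hB : 0 < B) (hQ : 1 ≤ Q) (ha : 0 ≤ a)
    (hn : 1 ≤ n) (hα : 1 ≤ ((n : ℝ) + 1) * w) (hβ : (n : ℝ) * w ≤ 1) (h1 : 0 ≤ E1) (h2 : 0 ≤ E2)
    (hE1 : E1 ≤ B * (Real.exp (w * a) ^ n + Real.exp (w * a) ^ (2 * n) / Q))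
    (hE2 : E2 ≤ B * (Real.exp (w * a) ^ (n + 1) + Real.exp (w * a) ^ (2 * (n + 1)) / Q)) :
    E1 ^ (((n : ℝ) + 1) * w - 1) * E2 ^ (1 - (n : ℝ) * w) ≤
      (2 * B) ^ w * Real.exp (w * a + w * ell a (Real.log Q)) := by
  have hQ0 : 0 < Q := by linarith
  have hs : 0 ≤ Real.log Q := Real.log_nonneg hQ
  have hci := hCI n w a (Real.log Q) hn hα hβ ha hs
  set m1 : ℝ := max ((n : ℝ) * (w * a)) (2 * (n : ℝ) * (w * a) - Real.log Q) with hm1
  set m2 : ℝ := max (((n : ℝ) + 1) * (w * a)) (2 * ((n : ℝ) + 1) * (w * a) - Real.log Q) with hm2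
  have k1 : E1 ≤ (2 * B) * Real.exp m1 := by
    have := pw (Q := Q) (z := w * a) (k := n) hQ0
    have h3 := mul_le_mul_of_nonneg_left this hB.le
    calc E1 ≤ _ := hE1
      _ ≤ _ := h3
      _ = _ := by rw [hm1]; ring
  have k2 : E2 ≤ (2 * B) * Real.exp m2 := by
    have := pw (Q := Q) (z := w * a) (k := n + 1) hQ0
    have h3 := mul_le_mul_of_nonneg_left this hB.le
    calc E2 ≤ _ := hE2
      _ ≤ _ := h3
      _ = _ := by rw [hm2]; push_cast; ring
  have hα0 : 0 ≤ ((n : ℝ) + 1) * w - 1 := by linarith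
  have hβ0 : 0 ≤ 1 - (n : ℝ) * w := by linarith
  have h2B : 0 < 2 * B := by linarith
  calc E1 ^ (((n : ℝ) + 1) * w - 1) * E2 ^ (1 - (n : ℝ) * w)
      ≤ ((2 * B) * Real.exp m1) ^ (((n : ℝ) + 1) * w - 1) *
        ((2 * B) * Real.exp m2) ^ (1 - (n : ℝ) * w) :=
        mul_le_mul (Real.rpow_le_rpow h1 k1 hα0) (Real.rpow_le_rpow h2 k2 hβ0)
          (Real.rpow_nonneg h2 _) (by positivity)
    _ = (2 * B) ^ w * Real.exp ((((n : ℝ) + 1) * w - 1) * m1 + (1 - (n : ℝ) * w) * m2) := by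
        rw [Real.mul_rpow h2B.le (Real.exp_pos _).le, Real.mul_rpow h2B.le (Real.exp_pos _).le,
          ← Real.exp_mul, ← Real.exp_mul, Real.exp_add]
        have : (2 * B) ^ w = (2 * B) ^ (((n : ℝ) + 1) * w - 1) * (2 * B) ^ (1 - (n : ℝ) * w) := by
          rw [← Real.rpow_add h2B]
          congr 1
          ring
        rw [this, mul_comm m1, mul_comm m2]
        ring
    _ ≤ _ := by
        refine mul_le_mul_of_nonneg_left (Real.exp_le_exp.2 hci) (by positivity)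

/-! ### The product over `J` -/

theorem prod_bound (hCI : T_CI) {K : ℕ} (Y : Fin K → ℕ) (J : Finset (Fin K)) (B Q d N : ℝ)
    (nmax : ℕ) (hd : 0 < d) (hnmax : nmax = ⌈1 / d⌉₊) (hB : 0 < B) (hQ : 1 ≤ Q) (hN : 1 < N)
    (hJ : ∀ j ∈ J, N ^ d ≤ (Y j : ℝ) ∧ 2 ≤ Y j) (hJne : J.Nonempty)
    (hAN : (∏ j ∈ J, (Y j : ℝ)) ≤ N) (E : Fin K → ℕ → ℝ) (hE0 : ∀ j n, 0 ≤ E j n)
    (hE : ∀ j ∈ J, ∀ n, 1 ≤ n → n ≤ nmax + 1 →
      E j n ≤ B * ((Y j : ℝ) ^ n + (Y j : ℝ) ^ (2 * n) / Q)) :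
    ∃ (n : Fin K → ℕ) (α β : Fin K → ℝ), (∀ j ∈ J, 1 ≤ n j ∧ 0 ≤ α j ∧ 0 ≤ β j ∧
      (n j : ℝ) * α j + ((n j : ℝ) + 1) * β j = 1) ∧ ∑ j ∈ J, (α j + β j) ≤ 1 ∧
      ∏ j ∈ J, (E j (n j) ^ α j * E j (n j + 1) ^ β j) ≤
        2 * B * ((∏ j ∈ J, (Y j : ℝ)) *
          Real.exp (ell (Real.log (∏ j ∈ J, (Y j : ℝ))) (Real.log Q))) := by
  set A : ℝ := ∏ j ∈ J, (Y j : ℝ) with hA
  have hYr : ∀ j ∈ J, (2 : ℝ) ≤ Y j := fun j hj => by exact_mod_cast (hJ j hj).2
  have hYA : ∀ j ∈ J, (Y j : ℝ) ≤ A := by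
    intro j hj
    rw [hA, ← Finset.mul_prod_erase J _ hj]
    have : 1 ≤ ∏ x ∈ J.erase j, (Y x : ℝ) :=
      one_le_pr _ _ fun x hx => by linarith [hYr x (Finset.mem_of_mem_erase hx)]
    have h2 := hYr j hj
    nlinarith
  obtain ⟨j₀, hj₀⟩ := hJne
  have hA2 : 2 ≤ A := (hYr j₀ hj₀).trans (hYA j₀ hj₀)
  have hA1 : 1 < A := by linarith
  have hA0 : 0 < A := by linarith
  have ha0 : 0 < Real.log A := Real.log_pos hA1
  set w : Fin K → ℝ := fun j => Real.logb A (Y j) with hw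
  have hw0 : ∀ j ∈ J, 0 < w j := fun j hj => Real.logb_pos hA1 (by linarith [hYr j hj])
  have hw1 : ∀ j ∈ J, w j ≤ 1 := by
    intro j hj
    rw [hw]
    simp only
    rw [Real.logb_le_iff_le_rpow hA1 (by linarith [hYr j hj]), Real.rpow_one]
    exact hYA j hj
  have hwA : ∀ j ∈ J, Real.exp (w j * Real.log A) = Y j := by
    intro j hj
    have : w j * Real.log A = Real.log (Y j) := by
      rw [hw]
      simp only
      rw [Real.logb, div_mul_cancel₀ _ ha0.ne']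
    rw [this, Real.exp_log (by linarith [hYr j hj])]
  have hwsum : ∑ j ∈ J, w j = 1 := by
    rw [hw]
    rw [← Real.logb_prod J (fun j => (Y j : ℝ)) (fun j hj => by linarith [hYr j hj])]
    exact Real.logb_self_eq_one hA1
  set n : Fin K → ℕ := fun j => ⌊1 / w j⌋₊ with hn
  have hn1 : ∀ j ∈ J, 1 ≤ n j := by
    intro j hj
    rw [hn]
    simp only
    rw [Nat.one_le_floor_iff, le_div_iff₀ (hw0 j hj), one_mul]
    exact hw1 j hj
  have hnβ : ∀ j ∈ J, (n j : ℝ) * w j ≤ 1 := by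
    intro j hj
    have h1 : (n j : ℝ) ≤ 1 / w j := Nat.floor_le (by have := hw0 j hj; positivity)
    rwa [le_div_iff₀ (hw0 j hj)] at h1
  have hnα : ∀ j ∈ J, 1 ≤ ((n j : ℝ) + 1) * w j := by
    intro j hj
    have h1 : 1 / w j < (n j : ℝ) + 1 := Nat.lt_floor_add_one _
    rw [div_lt_iff₀ (hw0 j hj)] at h1
    exact h1.le
  have hnm : ∀ j ∈ J, n j ≤ nmax := by
    intro j hj
    rw [hnmax]
    refine (Nat.floor_le_ceil _).trans (Nat.ceil_mono ?_)
    refine one_div_le_one_div_of_le hd ?_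
    have hlN : 0 < Real.log N := Real.log_pos hN
    have h1 : d * Real.log N ≤ Real.log (Y j) := by
      rw [← Real.log_rpow (by linarith)]
      exact Real.log_le_log (by positivity) (hJ j hj).1
    have h2 : Real.log A ≤ Real.log N := Real.log_le_log hA0 hAN
    rw [hw]
    simp only
    rw [Real.logb, le_div_iff₀ ha0]
    nlinarith
  refine ⟨n, fun j => ((n j : ℝ) + 1) * w j - 1, fun j => 1 - (n j : ℝ) * w j, ?_, ?_, ?_⟩
  · intro j hj
    refine ⟨hn1 j hj, by linarith [hnα j hj], by linarith [hnβ j hj], by ring⟩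
  · refine le_of_eq ?_
    rw [show (1 : ℝ) = ∑ j ∈ J, w j from hwsum.symm]
    refine Finset.sum_congr rfl fun j _ => ?_
    rw [hwsum]
    ring
  · have h2B : 0 < 2 * B := by linarith
    calc ∏ j ∈ J, (E j (n j) ^ (((n j : ℝ) + 1) * w j - 1) * E j (n j + 1) ^ (1 - (n j : ℝ) * w j))
        ≤ ∏ j ∈ J, ((2 * B) ^ w j *
          Real.exp (w j * Real.log A + w j * ell (Real.log A) (Real.log Q))) := by
          refine Finset.prod_le_prod (fun j _ => ?_) fun j hj => ?_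
          · exact mul_nonneg (Real.rpow_nonneg (hE0 _ _) _) (Real.rpow_nonneg (hE0 _ _) _)
          · refine factor hCI hB hQ ha0.le (hn1 j hj) (hnα j hj) (hnβ j hj) (hE0 _ _) (hE0 _ _)
              ?_ ?_
            · rw [hwA j hj]
              exact hE j hj (n j) (hn1 j hj) (by have := hnm j hj; omega)
            · rw [hwA j hj]
              exact hE j hj (n j + 1) (by omega) (by have := hnm j hj; omega)
      _ = 2 * B * (A * Real.exp (ell (Real.log A) (Real.log Q))) := by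
          rw [Finset.prod_mul_distrib, ← Real.rpow_sum_of_pos h2B, hwsum, Real.rpow_one,
            ← Real.exp_sum, Finset.sum_add_distrib, ← Finset.sum_mul, ← Finset.sum_mul, hwsum,
            one_mul, one_mul, Real.exp_add, Real.exp_log hA0]

/-! ### Floors -/

theorem cel_close {K T : ℕ} (v u : Fin K → ℕ) (hv : ∀ j, 1 ≤ v j)
    (h : (T : ℝ) * |∑ j, ((j.val : ℝ) + 1) * (Real.log (v j) - Real.log (u j))| ≤ 1) :
    ∑ j, cel T (j.val + 1) (v j) ≤ ∑ j, cel T (j.val + 1) (u j) + (K + 1) := by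
  have h1 : ∀ j, (cel T (j.val + 1) (v j) : ℝ) ≤ (T : ℝ) * ((j.val : ℝ) + 1) * Real.log (v j) := by
    intro j
    unfold cel
    have h0 : 0 ≤ Real.log (v j) := Real.log_nonneg (by exact_mod_cast hv j)
    refine (Nat.floor_le (by positivity)).trans (le_of_eq ?_)
    push_cast
    ring
  have h2 : ∀ j, (T : ℝ) * ((j.val : ℝ) + 1) * Real.log (u j) ≤
      (cel T (j.val + 1) (u j) : ℝ) + 1 := by
    intro j
    unfold cel
    have := (Nat.lt_floor_add_one ((T : ℝ) * ((j.val + 1 : ℕ) : ℝ) * Real.log (u j))).le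
    push_cast at this ⊢
    exact this
  have h3 : (T : ℝ) * ∑ j, ((j.val : ℝ) + 1) * (Real.log (v j) - Real.log (u j)) ≤ 1 :=
    (mul_le_mul_of_nonneg_left (le_abs_self _) (Nat.cast_nonneg T)).trans h
  have h4 : (T : ℝ) * ∑ j, ((j.val : ℝ) + 1) * (Real.log (v j) - Real.log (u j)) =
      ∑ j, (T : ℝ) * ((j.val : ℝ) + 1) * Real.log (v j) -
        ∑ j, (T : ℝ) * ((j.val : ℝ) + 1) * Real.log (u j) := by
    rw [Finset.mul_sum, ← Finset.sum_sub_distrib]
    refine Finset.sum_congr rfl fun j _ => ?_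
    ring
  have h5 : ∑ j, (cel T (j.val + 1) (v j) : ℝ) ≤
      ∑ j, (T : ℝ) * ((j.val : ℝ) + 1) * Real.log (v j) := Finset.sum_le_sum fun j _ => h1 j
  have h6 : ∑ j, (T : ℝ) * ((j.val : ℝ) + 1) * Real.log (u j) ≤
      ∑ j, (cel T (j.val + 1) (u j) : ℝ) + K := by
    refine (Finset.sum_le_sum fun j _ => h2 j).trans (le_of_eq ?_)
    rw [Finset.sum_add_distrib]
    simp
  have h7 : ((∑ j, cel T (j.val + 1) (v j) : ℕ) : ℝ) ≤
      ((∑ j, cel T (j.val + 1) (u j) + (K + 1) : ℕ) : ℝ) := by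
    push_cast
    linarith
  exact_mod_cast h7

theorem pf_F2 (hHG : T_HG) (hCI : T_CI) (hD : T_D2) (hW : T_WE) : T_F2 := by
  classical
  intro K ε hε
  set d : ℝ := ε / (4 * (K + 1)) with hd
  have hd0 : 0 < d := by positivity
  have hdK : 2 * d * (K + 1) ≤ ε := by
    rw [hd]
    have : (2 : ℝ) * (ε / (4 * (K + 1))) * (K + 1) = ε / 2 := by
      field_simp
      ring
    rw [this]
    linarith
  have hC : ∀ (j : Fin K) (n : ℕ), ∃ C : ℝ, 0 < C ∧ (1 ≤ n → ∀ (q T : ℕ) [NeZero q] (Y : ℕ),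
      1 ≤ Y →
  ((((Fintype.piFinset (fun _ : Fin n => Finset.Ico Y (2 * Y))) ×ˢ
      (Fintype.piFinset (fun _ : Fin n => Finset.Ico Y (2 * Y)))).filter
    (fun t => ((∏ i, t.1 i : ℕ) : ZMod q) ^ (j.val + 1) =
        ((∏ i, t.2 i : ℕ) : ZMod q) ^ (j.val + 1) ∧
      IsUnit (((∏ i, t.1 i : ℕ) : ZMod q) ^ (j.val + 1)) ∧
      ∑ i, cel T (j.val + 1) (t.1 i) = ∑ i, cel T (j.val + 1) (t.2 i))).card : ℝ) ≤
    C * ((q : ℝ) * Y) ^ d * ((Y : ℝ) ^ n + (Y : ℝ) ^ (2 * n) / ((q : ℝ) * ((T : ℝ) + 1)))) := by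
    intro j n
    by_cases hn : 1 ≤ n
    · obtain ⟨C, hC, h⟩ := hD (j.val + 1) n d (by omega) hn hd0
      exact ⟨C, hC, fun _ q T _ Y hY => h q T Y hY⟩
    · exact ⟨1, one_pos, fun h => absurd h hn⟩
  choose Cf hCf0 hCf using hC
  set nmax := ⌈1 / d⌉₊ with hnmax
  set C0 : ℝ := 1 + ∑ j, ∑ n ∈ Finset.range (nmax + 2), Cf j n with hC0
  have hC01 : 1 ≤ C0 := by
    have : 0 ≤ ∑ j, ∑ n ∈ Finset.range (nmax + 2), Cf j n :=
      Finset.sum_nonneg fun j _ => Finset.sum_nonneg fun n _ => (hCf0 j n).le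
    linarith
  have hCfle : ∀ j n, n ≤ nmax + 1 → Cf j n ≤ C0 := by
    intro j n hn
    have h1 : Cf j n ≤ ∑ n ∈ Finset.range (nmax + 2), Cf j n :=
      Finset.single_le_sum (f := fun n => Cf j n) (fun i _ => (hCf0 j i).le)
        (Finset.mem_range.2 (by omega))
    have h2 : ∑ n ∈ Finset.range (nmax + 2), Cf j n ≤
        ∑ j, ∑ n ∈ Finset.range (nmax + 2), Cf j n :=
      Finset.single_le_sum (f := fun j => ∑ n ∈ Finset.range (nmax + 2), Cf j n)
        (fun i _ => Finset.sum_nonneg fun n _ => (hCf0 i n).le) (Finset.mem_univ j)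
    linarith
  refine ⟨(2 * (K + 1 : ℕ) + 1 : ℕ) * (2 * C0), by positivity, ?_⟩
  intro N q T _ hqN Y hY hYN
  have hq1 : 1 ≤ q := NeZero.one_le
  have hN1 : 1 ≤ N := hq1.trans hqN
  have hNR : (1 : ℝ) ≤ N := by exact_mod_cast hN1
  have hN0 : (0 : ℝ) < N := by linarith
  have hqR : (1 : ℝ) ≤ q := by exact_mod_cast hq1
  set Q : ℝ := (q : ℝ) * ((T : ℝ) + 1) with hQdef
  have hQ1 : 1 ≤ Q := by
    have : (0 : ℝ) ≤ T := Nat.cast_nonneg T
    rw [hQdef]
    nlinarith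
  set P := Fintype.piFinset (fun j => Ico (Y j) (2 * Y j)) with hP
  set g : (Fin K → ℕ) → ZMod q := fun v => ∏ j, ((v j : ℕ) : ZMod q) ^ (j.val + 1) with hg
  set m : (Fin K → ℕ) → ℕ := fun v => ∑ j, cel T (j.val + 1) (v j) with hm
  set P' := P.filter (fun v => IsUnit (g v)) with hP'
  have hvpos : ∀ v ∈ P, ∀ j, 1 ≤ v j := by
    intro v hv j
    rw [hP, Fintype.mem_piFinset] at hv
    have := (Finset.mem_Ico.1 (hv j)).1
    have := hY j
    omega
  -- classes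
  have hsplit := split_card P' g m (K + 1)
    ((P ×ˢ P).filter (fun t => (∏ j, ((t.1 j : ℕ) : ZMod q) ^ (j.val + 1)) =
        ∏ j, ((t.2 j : ℕ) : ZMod q) ^ (j.val + 1) ∧
      IsUnit (∏ j, ((t.1 j : ℕ) : ZMod q) ^ (j.val + 1)) ∧
      (T : ℝ) * |∑ j, ((j.val : ℝ) + 1) * (Real.log (t.1 j) - Real.log (t.2 j))| ≤ 1)) (by
      intro t ht
      rw [Finset.mem_filter, Finset.mem_product] at ht
      obtain ⟨⟨h1, h2⟩, h3, h4, h5⟩ := ht
      refine ⟨?_, ?_, h3, ?_, ?_⟩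
      · rw [hP', Finset.mem_filter]
        exact ⟨h1, h4⟩
      · rw [hP', Finset.mem_filter]
        refine ⟨h2, ?_⟩
        change IsUnit (∏ j, ((t.2 j : ℕ) : ZMod q) ^ (j.val + 1))
        rw [← h3]
        exact h4
      · exact cel_close t.1 t.2 (hvpos _ h1) h5
      · refine cel_close t.2 t.1 (hvpos _ h2) ?_
        have : ∑ j, ((j.val : ℝ) + 1) * (Real.log (t.2 j) - Real.log (t.1 j)) =
            -∑ j, ((j.val : ℝ) + 1) * (Real.log (t.1 j) - Real.log (t.2 j)) := by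
          rw [← Finset.sum_neg_distrib]
          refine Finset.sum_congr rfl fun j _ => ?_
          ring
        rw [this, abs_neg]
        exact h5)
  -- the group
  set M : ℕ := ∑ j : Fin K, ∑ y ∈ Ico (Y j) (2 * Y j), cel T (j.val + 1) y with hM
  have hMle : ∀ j : Fin K, ∀ y ∈ Ico (Y j) (2 * Y j), cel T (j.val + 1) y ≤ M := by
    intro j y hy
    have h1 : cel T (j.val + 1) y ≤ ∑ y ∈ Ico (Y j) (2 * Y j), cel T (j.val + 1) y :=
      Finset.single_le_sum (f := fun y => cel T (j.val + 1) y) (fun _ _ => Nat.zero_le _) hy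
    have h2 : ∑ y ∈ Ico (Y j) (2 * Y j), cel T (j.val + 1) y ≤ M :=
      Finset.single_le_sum (f := fun j : Fin K => ∑ y ∈ Ico (Y j) (2 * Y j), cel T (j.val + 1) y)
        (fun _ _ => Nat.zero_le _) (Finset.mem_univ j)
    exact h1.trans h2
  set L : ℕ := (nmax + 1) * M + 1 with hL
  have : NeZero L := ⟨by omega⟩
  set B : Fin K → Finset ℕ := fun j =>
    (Ico (Y j) (2 * Y j)).filter (fun y => IsUnit ((y : ℕ) : ZMod q)) with hB
  set f : Fin K → ℕ → (ZMod q)ˣ × Multiplicative (ZMod L) := fun j y =>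
    fv q T L (j.val + 1) y with hf
  -- sizes
  set N1 : ℝ := (N : ℝ) ^ (2 * d) with hN1def
  have hN11 : 1 ≤ N1 := Real.one_le_rpow hNR (by positivity)
  have hYr : ∀ j, (1 : ℝ) ≤ Y j := fun j => by exact_mod_cast hY j
  set A : ℝ := ((∏ j, Y j : ℕ) : ℝ) with hAdef
  have hAeq : A = ∏ j, (Y j : ℝ) := by rw [hAdef]; push_cast; rfl
  have hAN : A ≤ N := by rw [hAdef]; exact_mod_cast hYN
  have hYA : ∀ j, (Y j : ℝ) ≤ A := by
    intro j
    rw [hAeq, ← Finset.mul_prod_erase Finset.univ _ (Finset.mem_univ j)]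
    have : 1 ≤ ∏ x ∈ Finset.univ.erase j, (Y x : ℝ) := one_le_pr _ _ fun x _ => hYr x
    have := hYr j
    nlinarith
  have hEn : ∀ j n, 1 ≤ n → n ≤ nmax + 1 → En (B j) (f j) n ≤
      (C0 * N1) * ((Y j : ℝ) ^ n + (Y j : ℝ) ^ (2 * n) / Q) := by
    intro j n hn hnm
    have h1 : En (B j) (f j) n ≤ _ := en_le (q := q) (T := T) (L := L) (j := j.val + 1) (n := n)
      (M := M) (Y := Y j) (hMle j) (by
        rw [hL]
        have := Nat.mul_le_mul_right M hnm
        omega)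
    refine h1.trans ((hCf j n hn q T (Y j) (hY j)).trans ?_)
    have hY0 := hYr j
    have hQ0 : 0 < Q := by linarith
    refine mul_le_mul_of_nonneg_right ?_ (by positivity)
    have hYN' : (Y j : ℝ) ≤ N := (hYA j).trans hAN
    have hqN' : (q : ℝ) ≤ N := by exact_mod_cast hqN
    have e1 : ((q : ℝ) * Y j) ^ d ≤ N1 := by
      rw [hN1def]
      calc ((q : ℝ) * Y j) ^ d ≤ ((N : ℝ) * N) ^ d := by
            refine Real.rpow_le_rpow (by positivity) ?_ hd0.le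
            exact mul_le_mul hqN' hYN' (by positivity) (by positivity)
        _ = (N : ℝ) ^ (2 * d) := by
            rw [Real.mul_rpow (by positivity) (by positivity), ← Real.rpow_add (by linarith)]
            congr 1
            ring
    exact mul_le_mul (hCfle j n hnm) e1 (by positivity) (by linarith)
  have hEn0 : ∀ j n, 0 ≤ En (B j) (f j) n := fun j n => by
    unfold En
    exact Nat.cast_nonneg _
  set J : Finset (Fin K) := Finset.univ.filter (fun j => (N : ℝ) ^ d ≤ (Y j : ℝ) ∧ 2 ≤ Y j)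
    with hJdef
  have hNd : 1 ≤ (N : ℝ) ^ d := Real.one_le_rpow hNR hd0.le
  have hout : ∀ j, j ∉ J → (Y j : ℝ) ≤ (N : ℝ) ^ d := by
    intro j hj
    rw [hJdef, Finset.mem_filter] at hj
    by_contra hcon
    push Not at hcon
    apply hj
    refine ⟨Finset.mem_univ _, hcon.le, ?_⟩
    have h1 : (1 : ℝ) < Y j := lt_of_le_of_lt hNd hcon
    have : 1 < Y j := by exact_mod_cast h1
    omega
  have hAJ : ∏ j ∈ J, (Y j : ℝ) ≤ A := by
    rw [hAeq, ← Finset.prod_mul_prod_compl J (fun j => (Y j : ℝ))]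
    exact le_mul_of_one_le_right (by positivity) (one_le_pr _ _ fun j _ => hYr j)
  have hAJ1 : 1 ≤ ∏ j ∈ J, (Y j : ℝ) := one_le_pr _ _ fun j _ => hYr j
  have hA1 : 1 ≤ A := hAJ1.trans hAJ
  have hcompl : ∏ j ∈ Jᶜ, ((B j).card : ℝ) ^ 2 ≤ (N : ℝ) ^ (2 * d * K) := by
    calc ∏ j ∈ Jᶜ, ((B j).card : ℝ) ^ 2 ≤ ∏ _j ∈ Jᶜ, ((N : ℝ) ^ d) ^ 2 := by
          refine Finset.prod_le_prod (fun j _ => by positivity) fun j hj => ?_
          have h1 : ((B j).card : ℝ) ≤ Y j := by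
            have : (B j).card ≤ Y j := by
              refine (Finset.card_filter_le _ _).trans ?_
              rw [Nat.card_Ico]
              omega
            exact_mod_cast this
          have h2 := h1.trans (hout j (Finset.mem_compl.1 hj))
          gcongr
      _ = (((N : ℝ) ^ d) ^ 2) ^ (Jᶜ).card := by rw [Finset.prod_const]
      _ ≤ (((N : ℝ) ^ d) ^ 2) ^ K := by
          refine pow_le_pow_right₀ (one_le_pow₀ hNd) ?_
          exact (Finset.card_le_univ _).trans (by simp)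
      _ = (N : ℝ) ^ (2 * d * K) := by
          rw [← Real.rpow_natCast, ← Real.rpow_natCast, ← Real.rpow_mul hN0.le,
            ← Real.rpow_mul hN0.le]
          congr 1
          push_cast
          ring
  have hw5 : A ≤ w5 Q A := by
    unfold w5
    have hQ0 : 0 < Q := by linarith
    have : 0 ≤ A / Q + A ^ ((4 : ℝ) / 5) / Q ^ ((3 : ℝ) / 5) + (A ^ 2 / Q) ^ ((1 : ℝ) / 5) := by
      positivity
    nlinarith
  -- the energy
  have hmain : ((((Fintype.piFinset B) ×ˢ (Fintype.piFinset B)).filter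
      (fun t => ∏ j, f j (t.1 j) = ∏ j, f j (t.2 j))).card : ℝ) ≤
      (N : ℝ) ^ (2 * d * K) * (2 * (C0 * N1) * w5 Q A) := by
    by_cases hJe : J = ∅
    · have h1 := hHG ((ZMod q)ˣ × Multiplicative (ZMod L)) K B f J (fun _ => 1) (fun _ => 1)
        (fun _ => 0) (by rw [hJe]; intro j hj; exact absurd hj (Finset.notMem_empty j))
        (by rw [hJe]; simp)
      refine h1.trans ?_
      refine mul_le_mul hcompl ?_ ?_ (by positivity)
      · rw [hJe, Finset.prod_empty]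
        have e1 : 1 ≤ C0 * N1 := one_le_mul_of_one_le_of_one_le hC01 hN11
        have e2 : 1 ≤ w5 Q A := hA1.trans hw5
        nlinarith
      · rw [hJe, Finset.prod_empty]
        norm_num
    · obtain ⟨j₀, hj₀⟩ := Finset.nonempty_iff_ne_empty.2 hJe
      have hj₀' := hj₀
      rw [hJdef, Finset.mem_filter] at hj₀'
      have hN1' : (1 : ℝ) < N := by
        have h2 : (2 : ℝ) ≤ Y j₀ := by exact_mod_cast hj₀'.2.2
        linarith [hYA j₀]
      obtain ⟨n, α, β, h1, h2, h3⟩ := prod_bound hCI Y J (C0 * N1) Q d N nmax hd0 hnmax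
        (by positivity) hQ1 hN1' (fun j hj => (Finset.mem_filter.1 hj).2) ⟨j₀, hj₀⟩
        (hAJ.trans hAN) (fun j n => En (B j) (f j) n) hEn0 (fun j _ n hn hnm => hEn j n hn hnm)
      refine (hHG ((ZMod q)ˣ × Multiplicative (ZMod L)) K B f J n α β h1 h2).trans ?_
      refine mul_le_mul hcompl ?_ ?_ (by positivity)
      · refine h3.trans ?_
        refine mul_le_mul_of_nonneg_left ?_ (by positivity)
        exact (hW.1 Q _ hQ1 hAJ1).1.trans (hW.2.1 Q _ _ hQ1 hAJ1 hAJ)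
      · refine Finset.prod_nonneg fun j _ => ?_
        exact mul_nonneg (Real.rpow_nonneg (hEn0 _ _) _) (Real.rpow_nonneg (hEn0 _ _) _)
  have hcls : (((P' ×ˢ P').filter (fun t => g t.1 = g t.2 ∧ m t.1 = m t.2)).card : ℝ) ≤
      ((((Fintype.piFinset B) ×ˢ (Fintype.piFinset B)).filter
      (fun t => ∏ j, f j (t.1 j) = ∏ j, f j (t.2 j))).card : ℝ) := by
    rw [Nat.cast_le]
    refine Finset.card_le_card fun t ht => ?_
    rw [Finset.mem_filter, Finset.mem_product] at ht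
    obtain ⟨⟨h1, h2⟩, h3, h4⟩ := ht
    have hu : ∀ v ∈ P', ∀ j, v j ∈ Ico (Y j) (2 * Y j) ∧ IsUnit ((v j : ℕ) : ZMod q) := by
      intro v hv j
      rw [hP', Finset.mem_filter, hP, Fintype.mem_piFinset] at hv
      refine ⟨hv.1 j, ?_⟩
      have h5 := (IsUnit.prod_univ_iff.1 hv.2) j
      exact (isUnit_pow_succ_iff).1 h5
    rw [Finset.mem_filter, Finset.mem_product, Fintype.mem_piFinset, Fintype.mem_piFinset]
    refine ⟨⟨fun j => Finset.mem_filter.2 (hu _ h1 j), fun j => Finset.mem_filter.2 (hu _ h2 j)⟩, ?_⟩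
    refine Prod.ext ?_ ?_
    · refine Units.ext ?_
      rw [fv_fst (T := T) (L := L) Finset.univ (fun j : Fin K => j.val + 1) (fun i => t.1 i)
        (fun i _ => (hu _ h1 i).2), fv_fst (T := T) (L := L) Finset.univ
        (fun j : Fin K => j.val + 1) (fun i => t.2 i) (fun i _ => (hu _ h2 i).2)]
      exact h3
    · rw [fv_snd Finset.univ (fun j : Fin K => j.val + 1) (fun i => t.1 i),
        fv_snd Finset.univ (fun j : Fin K => j.val + 1) (fun i => t.2 i)]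
      change m t.1 = m t.2 at h4
      simp only [hm] at h4
      rw [h4]
  have hfin : ((((P ×ˢ P).filter (fun t => (∏ j, ((t.1 j : ℕ) : ZMod q) ^ (j.val + 1)) =
        ∏ j, ((t.2 j : ℕ) : ZMod q) ^ (j.val + 1) ∧
      IsUnit (∏ j, ((t.1 j : ℕ) : ZMod q) ^ (j.val + 1)) ∧
      (T : ℝ) * |∑ j, ((j.val : ℝ) + 1) * (Real.log (t.1 j) - Real.log (t.2 j))| ≤ 1)).card : ℕ) :
      ℝ) ≤ ((2 * (K + 1) + 1 : ℕ) : ℝ) * ((N : ℝ) ^ (2 * d * K) * (2 * (C0 * N1) * w5 Q A)) := by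
    have h1 : ((((P ×ˢ P).filter (fun t => (∏ j, ((t.1 j : ℕ) : ZMod q) ^ (j.val + 1)) =
        ∏ j, ((t.2 j : ℕ) : ZMod q) ^ (j.val + 1) ∧
      IsUnit (∏ j, ((t.1 j : ℕ) : ZMod q) ^ (j.val + 1)) ∧
      (T : ℝ) * |∑ j, ((j.val : ℝ) + 1) * (Real.log (t.1 j) - Real.log (t.2 j))| ≤ 1)).card : ℕ) :
      ℝ) ≤ ((2 * (K + 1) + 1 : ℕ) : ℝ) *
        (((P' ×ˢ P').filter (fun t => g t.1 = g t.2 ∧ m t.1 = m t.2)).card : ℝ) := by
      exact_mod_cast hsplit
    exact h1.trans (mul_le_mul_of_nonneg_left (hcls.trans hmain) (by positivity))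
  have hA0 : 0 ≤ w5 Q A := le_trans (by linarith) hw5
  refine le_trans (le_of_eq ?_) (hfin.trans ?_)
  · congr 2
  · calc ((2 * (K + 1) + 1 : ℕ) : ℝ) * ((N : ℝ) ^ (2 * d * K) * (2 * (C0 * N1) * w5 Q A))
        = ((2 * (K + 1) + 1 : ℕ) : ℝ) * (2 * C0) * ((N : ℝ) ^ (2 * d * K) * N1) * w5 Q A := by
          ring
      _ ≤ ((2 * (K + 1) + 1 : ℕ) : ℝ) * (2 * C0) * (N : ℝ) ^ ε * w5 Q A := by
          refine mul_le_mul_of_nonneg_right ?_ hA0
          refine mul_le_mul_of_nonneg_left ?_ (by positivity)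
          rw [hN1def, ← Real.rpow_add hN0]
          refine Real.rpow_le_rpow_of_exponent_le hNR ?_
          linarith

end Pool.Agent.H59.AF
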